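import Pool.Agent.T9h21.DP.Spec3

/-!
# DPA, piece (u5): the options, from the hash functions
-/

set_option autoImplicit false
set_option linter.unusedSectionVars false

namespace Pool.Agent.T9h22.DP

open Finset Pool.Agent.T9h21.DP Pool.Agent.T9h48.TSP

/-- a point as a complex number -/
noncomputable def zz (a : ℤ × ℤ) : ℂ := ⟨a.1, a.2⟩

theorem eucl_eq (a b : ℤ × ℤ) : eucl a b = dist (zz a) (zz b) := by
  rw [dist_eq_norm, Complex.norm_eq_sqrt_sq_add_sq]
  unfold eucl zz
  congr 2
  · simp
  · simp

theorem eucl_nn (a b : ℤ × ℤ) : 0 ≤ eucl a b := Real.sqrt_nonneg _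

theorem eucl_symm (a b : ℤ × ℤ) : eucl a b = eucl b a := by
  rw [eucl_eq, eucl_eq, dist_comm]

theorem eucl_tri (a b c : ℤ × ℤ) : eucl a c ≤ eucl a b + eucl b c := by
  rw [eucl_eq, eucl_eq, eucl_eq]
  exact dist_triangle _ _ _

theorem eucl_self (a : ℤ × ℤ) : eucl a a = 0 := by
  rw [eucl_eq, dist_self]

/-! ## Cyclic walks -/

section walk

variable {n : ℕ} (p : Fin n → ℤ × ℤ) (c : ℕ → Fin n)

/-- the sides -/
noncomputable def E (j : ℕ) : ℝ := eucl (p (c j)) (p (c (j + 1)))

theorem E_nn (j : ℕ) : 0 ≤ E p c j := eucl_nn _ _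

theorem walk (j t : ℕ) : eucl (p (c j)) (p (c (j + t))) ≤ ∑ s ∈ range t, E p c (j + s) := by
  induction t with
  | zero => simp [eucl_self]
  | succ t ih =>
    rw [sum_range_succ]
    refine (eucl_tri _ (p (c (j + t))) _).trans (add_le_add ih ?_)
    exact le_of_eq rfl

theorem sum_shift (f : ℕ → ℝ) (m : ℕ) (hper : ∀ j, f (j + m) = f j) (s : ℕ) :
    ∑ j ∈ range m, f (j + s) = ∑ j ∈ range m, f j := by
  induction s with
  | zero => simp
  | succ s ih =>
    rw [← ih]
    have h1 := Finset.sum_range_succ (fun j => f (j + s)) m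
    have h2 := Finset.sum_range_succ' (fun j => f (j + s)) m
    have h3 : f (m + s) = f (0 + s) := by
      have := hper s
      rw [show m + s = s + m by ring, this, zero_add]
    have h4 : ∑ j ∈ range m, f (j + 1 + s) = ∑ j ∈ range m, f (j + (s + 1)) :=
      sum_congr rfl fun j _ => by congr 1; ring
    rw [h4] at h2
    linarith

variable (m : ℕ) (hper : ∀ j, c (j + m) = c j)

include hper in
theorem E_per (j : ℕ) : E p c (j + m) = E p c j := by
  unfold E
  rw [hper, show j + m + 1 = j + 1 + m by ring, hper]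

include hper in
theorem half (j t : ℕ) (ht : t ≤ m) :
    2 * eucl (p (c j)) (p (c (j + t))) ≤ ∑ j ∈ range m, E p c j := by
  have h1 := walk p c j t
  have h2 := walk p c (j + t) (m - t)
  have h3 : j + t + (m - t) = j + m := by omega
  rw [h3, hper, eucl_symm] at h2
  have h4 : ∑ s ∈ range m, E p c (j + s) = ∑ j ∈ range m, E p c j := by
    rw [← sum_shift (E p c) m (E_per p c m hper) j]
    exact sum_congr rfl fun s _ => by congr 1; ring
  have h5 : ∑ s ∈ range m, E p c (j + s) =
      ∑ s ∈ range t, E p c (j + s) + ∑ s ∈ range (m - t), E p c (j + t + s) := by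
    conv_lhs => rw [show m = t + (m - t) by omega]
    rw [sum_range_add]
    congr 1
    exact sum_congr rfl fun s _ => by congr 1; ring
  linarith

variable (A : Finset (Fin n)) (hm : 0 < m)
  (hinj : ∀ j u u', u < m → u' < m → c (j + u) = c (j + u') → u = u')
  (hsurj : ∀ x ∈ A, ∃ j < m, c j = x) (hmem : ∀ j, c j ∈ A)

include hper hm in
theorem c_mod (j : ℕ) : c (j % m) = c j := by
  have h1 : ∀ k, c (j % m + m * k) = c (j % m) := by
    intro k
    induction k with
    | zero => simp
    | succ k ih => rw [Nat.mul_succ, ← add_assoc, hper, ih]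
  rw [← h1 (j / m), Nat.mod_add_div]

include hper hm hsurj in
theorem reach (x : Fin n) (hx : x ∈ A) (j : ℕ) : ∃ t < m, c (j + t) = x := by
  obtain ⟨i, hi, rfl⟩ := hsurj x hx
  refine ⟨(i + (m - j % m)) % m, Nat.mod_lt _ hm, ?_⟩
  have h1 : (j + (i + (m - j % m)) % m) % m = i := by
    have h2 := Nat.mod_lt j hm
    have h3 := Nat.mod_add_div j m
    rw [Nat.add_mod_mod]
    have h4 : j + (i + (m - j % m)) = i + m * (j / m + 1) := by
      have : m * (j / m + 1) = m * (j / m) + m := by ring
      omega
    rw [h4, Nat.add_mul_mod_self_left, Nat.mod_eq_of_lt hi]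
  rw [← c_mod c m hper hm, h1]

open Classical in
include hper hm hsurj hmem in
/-- the cost of connecting everything to `B` along the tour -/
theorem cost (B : Finset (Fin n)) (x : Fin n) (hxA : x ∈ A) (hxB : x ∈ B) :
    ∃ g : Fin n → Fin n, (∀ v, g v ∈ B) ∧ ∑ v ∈ A \ B, eucl (p v) (p (g v)) ≤
      ∑ j ∈ range m, ∑ s ∈ range m,
        if (∀ u ≤ s, c (j + u) ∉ B) then E p c (j + s) else 0 := by
  have hex : ∀ j, ∃ t, c (j + t) ∈ B := by
    intro j
    obtain ⟨t, -, ht⟩ := reach c m hper A hm hsurj x hxA j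
    exact ⟨t, by rw [ht]; exact hxB⟩
  set T : ℕ → ℕ := fun j => Nat.find (hex j) with hT
  have hTm : ∀ j, T j < m := by
    intro j
    obtain ⟨t, ht1, ht⟩ := reach c m hper A hm hsurj x hxA j
    exact lt_of_le_of_lt (Nat.find_min' (hex j) (by rw [ht]; exact hxB)) ht1
  choose! idx hidx1 hidx2 using hsurj
  set h : ℕ → ℝ := fun j => ∑ s ∈ range m,
    if (∀ u ≤ s, c (j + u) ∉ B) then E p c (j + s) else 0 with hh
  have hh0 : ∀ j, 0 ≤ h j := by
    intro j
    refine sum_nonneg fun s _ => ?_
    split_ifs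
    · exact E_nn _ _ _
    · exact le_rfl
  have hd : ∀ j, eucl (p (c j)) (p (c (j + T j))) ≤ h j := by
    intro j
    refine (walk p c j (T j)).trans ?_
    have h1 : ∑ s ∈ range (T j), E p c (j + s) =
        ∑ s ∈ range (T j), if (∀ u ≤ s, c (j + u) ∉ B) then E p c (j + s) else 0 := by
      refine sum_congr rfl fun s hs => ?_
      rw [if_pos]
      intro u hu
      exact Nat.find_min (hex j) (lt_of_le_of_lt hu (mem_range.1 hs))
    rw [h1]
    refine sum_le_sum_of_subset_of_nonneg ?_ fun s _ _ => ?_
    · exact range_subset_range.2 (hTm j).le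
    · split_ifs
      · exact E_nn _ _ _
      · exact le_rfl
  refine ⟨fun v => c (idx v + T (idx v)), fun v => Nat.find_spec (hex (idx v)), ?_⟩
  calc ∑ v ∈ A \ B, eucl (p v) (p (c (idx v + T (idx v))))
      ≤ ∑ v ∈ A, h (idx v) := by
        refine (sum_le_sum_of_subset_of_nonneg sdiff_subset fun v _ _ => eucl_nn _ _).trans ?_
        refine sum_le_sum fun v hv => ?_
        have := hd (idx v)
        rwa [hidx2 v hv] at this
    _ = ∑ j ∈ A.image idx, h j := by
        rw [sum_image]
        intro a ha b hb hab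
        rw [← hidx2 a ha, ← hidx2 b hb, hab]
    _ ≤ ∑ j ∈ range m, h j := by
        refine sum_le_sum_of_subset_of_nonneg ?_ fun j _ _ => hh0 j
        intro j hj
        rw [mem_image] at hj
        obtain ⟨v, hv, rfl⟩ := hj
        exact mem_range.2 (hidx1 v hv)

end walk

/-- a tour as a cyclic walk -/
theorem exists_cyc {n : ℕ} (p : Fin n → ℤ × ℤ) (A : Finset (Fin n)) (r : ℝ) (hA : A.Nonempty)
    (hT : Tour p A r) : ∃ (m : ℕ) (c : ℕ → Fin n), 0 < m ∧ (∀ j, c (j + m) = c j) ∧
      (∀ j u u', u < m → u' < m → c (j + u) = c (j + u') → u = u') ∧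
      (∀ x ∈ A, ∃ j < m, c j = x) ∧ (∀ j, c j ∈ A) ∧ ∑ j ∈ range m, E p c j ≤ r ∧ m = A.card := by
  obtain ⟨l, hl, hlA, hlr⟩ := hT
  have hm : 0 < l.length := by
    obtain ⟨x, hx⟩ := hA
    rw [← hlA, List.mem_toFinset] at hx
    exact List.length_pos_of_mem hx
  have hcongr : ∀ i j (hi : i < l.length) (hj : j < l.length), i = j → l[i]'hi = l[j]'hj := by
    rintro i _ hi hj rfl
    rfl
  refine ⟨l.length, fun j => l[j % l.length]'(Nat.mod_lt _ hm), hm, ?_, ?_, ?_, ?_, ?_, ?_⟩
  · intro j
    exact hcongr _ _ _ _ (Nat.add_mod_right _ _)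
  · intro j u u' hu hu' h
    have h1 := (List.Nodup.getElem_inj_iff hl).1 h
    have h2 : u ≡ u' [MOD l.length] := Nat.ModEq.add_left_cancel' j h1
    exact Nat.ModEq.eq_of_lt_of_lt h2 hu hu'
  · intro x hx
    rw [← hlA, List.mem_toFinset] at hx
    obtain ⟨j, hj, hjx⟩ := List.getElem_of_mem hx
    refine ⟨j, hj, ?_⟩
    rw [← hjx]
    exact hcongr _ _ _ _ (Nat.mod_eq_of_lt hj)
  · intro j
    rw [← hlA, List.mem_toFinset]
    exact List.getElem_mem _
  · refine le_trans (le_of_eq ?_) hlr
    unfold clen E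
    have h1 : List.zipWith (fun u v => eucl (p u) (p v)) l (l.rotate 1) =
        List.ofFn (fun j : Fin l.length =>
          eucl (p (l[(j : ℕ) % l.length]'(Nat.mod_lt _ hm)))
            (p (l[((j : ℕ) + 1) % l.length]'(Nat.mod_lt _ hm)))) := by
      apply List.ext_getElem
      · simp
      · intro i h1 h2
        rw [List.getElem_zipWith, List.getElem_ofFn, List.getElem_rotate]
        have hi : i < l.length := by simpa using h2
        congr 2
        exact hcongr _ _ _ _ (Nat.mod_eq_of_lt hi).symm
    rw [h1, List.sum_ofFn, Fin.sum_univ_eq_sum_range (fun j =>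
      eucl (p (l[j % l.length]'(Nat.mod_lt _ hm))) (p (l[(j + 1) % l.length]'(Nat.mod_lt _ hm))))]
  · rw [← hlA, List.toFinset_card_of_nodup hl]

/-- the weights -/
theorem sum_w (m : ℕ) : ∑ s ∈ range m, min 1 (49 / ((s : ℝ) + 1) ^ 2) ≤ 14 := by
  have h1 : ∀ m : ℕ, ∑ s ∈ range (7 + m), min 1 (49 / ((s : ℝ) + 1) ^ 2) ≤
      14 - 49 / ((m : ℝ) + 7) := by
    intro m
    induction m with
    | zero =>
      have : ∑ s ∈ range (7 + 0), min 1 (49 / ((s : ℝ) + 1) ^ 2) ≤ ∑ _s ∈ range 7, (1 : ℝ) :=
        sum_le_sum fun s _ => min_le_left _ _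
      refine this.trans ?_
      norm_num
    | succ m ih =>
      rw [← add_assoc, sum_range_succ]
      have h2 : min 1 (49 / (((7 + m : ℕ) : ℝ) + 1) ^ 2) ≤
          49 / ((m : ℝ) + 7) - 49 / (((m + 1 : ℕ) : ℝ) + 7) := by
        refine (min_le_right _ _).trans ?_
        push_cast
        have h3 : (0 : ℝ) < (m : ℝ) + 7 := by positivity
        have h4 : (0 : ℝ) < (m : ℝ) + 1 + 7 := by positivity
        have h5 : 49 / ((m : ℝ) + 7) - 49 / ((m : ℝ) + 1 + 7) =
            49 / (((m : ℝ) + 7) * ((m : ℝ) + 1 + 7)) := by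
          field_simp
          ring
        rw [h5]
        refine div_le_div_of_nonneg_left (by norm_num) (by positivity) ?_
        nlinarith
      linarith
  have h2 : ∑ s ∈ range m, min 1 (49 / ((s : ℝ) + 1) ^ 2) ≤
      ∑ s ∈ range (7 + m), min 1 (49 / ((s : ℝ) + 1) ^ 2) := by
    refine sum_le_sum_of_subset_of_nonneg (range_subset_range.2 (by omega)) fun s _ _ => ?_
    exact le_min zero_le_one (by positivity)
  refine (h2.trans (h1 m)).trans ?_
  have : 0 ≤ 49 / ((m : ℝ) + 7) := by positivity
  linarith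

theorem uOpt : U_hash → U_tour → U_opt := by
  intro hHash _ n A hA2
  classical
  obtain ⟨a₀, ha₀⟩ : A.Nonempty := card_pos.1 (by omega)
  have hAn : A.card ≤ n := by
    have := card_le_univ A
    rwa [Fintype.card_fin] at this
  have hpow : 1 ≤ (2 * n) ^ 4 := Nat.one_le_pow _ _ (by omega)
  by_cases hsmall : A.card ≤ 200
  · refine ⟨{{a₀}}, singleton_nonempty _, ?_, ?_, ?_⟩
    · rw [card_singleton]; exact hpow
    · intro B hB
      rw [mem_singleton] at hB
      subst hB
      refine ⟨singleton_subset_iff.2 ha₀, singleton_nonempty _, ?_⟩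
      rw [card_singleton]; omega
    · intro p r hr hT
      refine ⟨{a₀}, mem_singleton_self _, fun _ => a₀, fun _ => mem_singleton_self _, ?_⟩
      obtain ⟨m, c, hm, hper, -, hsurj, -, hsum, -⟩ := exists_cyc p A r ⟨a₀, ha₀⟩ hT
      have h1 : ∀ v ∈ A, eucl (p v) (p a₀) ≤ r / 2 := by
        intro v hv
        obtain ⟨j, -, rfl⟩ := hsurj v hv
        obtain ⟨t, ht, hta⟩ := reach c m hper A hm hsurj a₀ ha₀ j
        have h2 := half p c m hper j t ht.le
        rw [hta] at h2
        linarith
      calc ∑ v ∈ A \ {a₀}, eucl (p v) (p a₀) ≤ ∑ _v ∈ A \ {a₀}, r / 2 :=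
            sum_le_sum fun v hv => h1 v (sdiff_subset hv)
        _ = ((A \ {a₀}).card : ℝ) * (r / 2) := by rw [sum_const, nsmul_eq_mul]
        _ ≤ 200 * (r / 2) := by
            refine mul_le_mul_of_nonneg_right ?_ (by linarith)
            have : (A \ {a₀}).card ≤ 200 := (card_le_card sdiff_subset).trans hsmall
            exact_mod_cast this
        _ = 100 * r := by ring
  · push Not at hsmall
    obtain ⟨k, Bh, hk1, hk2, hv, hJ⟩ := hHash n (by omega)
    set N : ℝ := (A.card : ℝ) with hN
    have hN200 : (201 : ℝ) ≤ N := by rw [hN]; exact_mod_cast hsmall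
    set F : Fin k → Finset (Fin n) := fun i => insert a₀ (Bh i ∩ A) with hF
    set I : Finset (Fin k) := univ.filter fun i => 4 * (F i).card ≤ 3 * A.card with hI
    have hk0 : (0 : ℝ) < k := by exact_mod_cast hk1
    -- many good hash functions
    have hIcard : (k : ℝ) / 2 ≤ I.card := by
      have h1 : ∑ i : Fin k, ((Bh i ∩ A).card : ℝ) =
          ∑ v ∈ A, ((univ.filter fun i => v ∈ Bh i).card : ℝ) := by
        have h2 : ∀ i : Fin k, ((Bh i ∩ A).card : ℝ) = ∑ v ∈ A, if v ∈ Bh i then (1 : ℝ) else 0 := by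
          intro i
          rw [← sum_filter, sum_const, nsmul_eq_mul, mul_one, inter_comm, ← filter_mem_eq_inter]
        have h3 : ∀ v, ((univ.filter fun i => v ∈ Bh i).card : ℝ) =
            ∑ i : Fin k, if v ∈ Bh i then (1 : ℝ) else 0 := by
          intro v
          rw [← sum_filter, sum_const, nsmul_eq_mul, mul_one]
        rw [sum_congr rfl fun i _ => h2 i, sum_comm]
        exact sum_congr rfl fun v _ => (h3 v).symm
      have h4 : ∑ v ∈ A, ((univ.filter fun i => v ∈ Bh i).card : ℝ) ≤ N * (k / 3) := by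
        rw [hN, ← nsmul_eq_mul, ← sum_const]
        refine sum_le_sum fun v _ => ?_
        have := hv v
        linarith
      have h5 : ((univ.filter fun i : Fin k => ¬ 4 * (F i).card ≤ 3 * A.card).card : ℝ) *
          (74 / 100 * N) ≤ ∑ i : Fin k, ((Bh i ∩ A).card : ℝ) := by
        rw [← nsmul_eq_mul, ← sum_const]
        refine le_trans ?_ (sum_le_sum_of_subset_of_nonneg
          (subset_univ (univ.filter fun i : Fin k => ¬ 4 * (F i).card ≤ 3 * A.card))
          fun i _ _ => Nat.cast_nonneg _)
        refine sum_le_sum fun i hi => ?_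
        rw [mem_filter] at hi
        have h6 : 3 * A.card < 4 * (F i).card := not_le.1 hi.2
        have h7 : (F i).card ≤ (Bh i ∩ A).card + 1 := card_insert_le _ _
        have h8 : 3 * A.card < 4 * ((Bh i ∩ A).card + 1) := by omega
        have h9 : 3 * N < 4 * (((Bh i ∩ A).card : ℝ) + 1) := by rw [hN]; exact_mod_cast h8
        linarith
      have h10 : (I.card : ℝ) +
          ((univ.filter fun i : Fin k => ¬ 4 * (F i).card ≤ 3 * A.card).card : ℝ) = k := by
        have := card_filter_add_card_filter_not (s := (univ : Finset (Fin k)))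
          (fun i : Fin k => 4 * (F i).card ≤ 3 * A.card)
        rw [card_univ, Fintype.card_fin] at this
        exact_mod_cast this
      set b := ((univ.filter fun i : Fin k => ¬ 4 * (F i).card ≤ 3 * A.card).card : ℝ) with hb
      have h11 : b * (74 / 100 * N) ≤ N * (k / 3) := by rw [h1] at h5; exact h5.trans h4
      have h12 : b * (74 / 100) ≤ k / 3 := by
        have hN0 : 0 < N := by linarith
        have : N * (b * (74 / 100)) ≤ N * (k / 3) := by linarith
        exact le_of_mul_le_mul_left this hN0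
      linarith
    have hIne : I.Nonempty := by
      rw [← card_pos]
      have : (0 : ℝ) < I.card := by linarith
      exact_mod_cast this
    refine ⟨I.image F, hIne.image F, ?_, ?_, ?_⟩
    · refine (card_image_le.trans (card_le_univ I)).trans ?_
      rw [Fintype.card_fin]; exact hk2
    · intro B hB
      rw [mem_image] at hB
      obtain ⟨i, hi, rfl⟩ := hB
      rw [hI, mem_filter] at hi
      exact ⟨insert_subset ha₀ inter_subset_right, insert_nonempty _ _, hi.2⟩
    · intro p r hr hT
      obtain ⟨m, c, hm, hper, hinj, hsurj, hmem, hsum, -⟩ := exists_cyc p A r ⟨a₀, ha₀⟩ hT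
      set r' := ∑ j ∈ range m, E p c j with hr'
      set J : ℕ → ℕ → Finset (Fin n) := fun j s => (range (s + 1)).image fun u => c (j + u) with hJdef
      set K : Fin k → ℝ := fun i => ∑ j ∈ range m, ∑ s ∈ range m,
        if Disjoint (Bh i) (J j s) then E p c (j + s) else 0 with hK
      have hK0 : ∀ i, 0 ≤ K i := by
        intro i
        refine sum_nonneg fun j _ => sum_nonneg fun s _ => ?_
        split_ifs
        · exact E_nn _ _ _
        · exact le_rfl
      -- the mean
      have hmean : ∑ i : Fin k, K i ≤ 14 * k * r' := by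
        have e1 : ∑ i : Fin k, K i = ∑ j ∈ range m, ∑ s ∈ range m,
            E p c (j + s) * ((univ.filter fun i : Fin k => Disjoint (Bh i) (J j s)).card : ℝ) := by
          simp only [hK]
          rw [sum_comm]
          refine sum_congr rfl fun j _ => ?_
          rw [sum_comm]
          refine sum_congr rfl fun s _ => ?_
          rw [← sum_filter, sum_const, nsmul_eq_mul, mul_comm]
        have e2 : ∀ j ∈ range m, ∀ s ∈ range m,
            E p c (j + s) * ((univ.filter fun i : Fin k => Disjoint (Bh i) (J j s)).card : ℝ) ≤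
            E p c (j + s) * (min 1 (49 / ((s : ℝ) + 1) ^ 2) * k) := by
          intro j _ s hs
          refine mul_le_mul_of_nonneg_left ?_ (E_nn _ _ _)
          have hJc : (J j s).card = s + 1 := by
            simp only [hJdef]
            rw [card_image_of_injOn, card_range]
            intro u hu u' hu' h
            have hs' := mem_range.1 hs
            have h1 := mem_range.1 (mem_coe.1 hu)
            have h2 := mem_range.1 (mem_coe.1 hu')
            exact hinj j u u' (by omega) (by omega) h
          rw [min_mul_of_nonneg _ _ hk0.le]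
          refine le_min ?_ ?_
          · rw [one_mul]
            have := card_filter_le (univ : Finset (Fin k)) (fun i => Disjoint (Bh i) (J j s))
            rw [card_univ, Fintype.card_fin] at this
            exact_mod_cast this
          · have h3 := hJ (J j s) (card_pos.1 (by omega))
            rw [hJc] at h3
            push_cast at h3
            exact h3
        rw [e1]
        refine (sum_le_sum fun j hj => sum_le_sum fun s hs => e2 j hj s hs).trans ?_
        rw [sum_comm]
        have e3 : ∀ s ∈ range m, ∑ j ∈ range m, E p c (j + s) *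
            (min 1 (49 / ((s : ℝ) + 1) ^ 2) * k) = r' * k * min 1 (49 / ((s : ℝ) + 1) ^ 2) := by
          intro s _
          rw [← sum_mul, sum_shift (E p c) m (E_per p c m hper) s]
          ring
        rw [sum_congr rfl e3, ← mul_sum]
        have hr'0 : 0 ≤ r' := sum_nonneg fun j _ => E_nn _ _ _
        calc r' * k * ∑ s ∈ range m, min 1 (49 / ((s : ℝ) + 1) ^ 2) ≤ r' * k * 14 :=
              mul_le_mul_of_nonneg_left (sum_w m) (by positivity)
          _ = _ := by ring
      have hr'0 : 0 ≤ r' := sum_nonneg fun j _ => E_nn _ _ _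
      obtain ⟨i, hi, hKi⟩ : ∃ i ∈ I, K i ≤ 28 * r' := by
        refine exists_le_of_sum_le hIne ?_
        rw [sum_const, nsmul_eq_mul]
        calc ∑ i ∈ I, K i ≤ ∑ i : Fin k, K i :=
              sum_le_sum_of_subset_of_nonneg (subset_univ _) fun i _ _ => hK0 i
          _ ≤ 14 * k * r' := hmean
          _ = (k / 2) * (28 * r') := by ring
          _ ≤ _ := mul_le_mul_of_nonneg_right hIcard (by positivity)
      obtain ⟨g, hg1, hg2⟩ := cost p c m hper A hm hsurj hmem (F i) a₀ ha₀ (mem_insert_self _ _)
      refine ⟨F i, mem_image_of_mem F hi, g, hg1, ?_⟩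
      refine hg2.trans ?_
      have h20 : (∑ j ∈ range m, ∑ s ∈ range m,
          if (∀ u ≤ s, c (j + u) ∉ F i) then E p c (j + s) else 0) ≤ K i := by
        simp only [hK]
        refine sum_le_sum fun j _ => sum_le_sum fun s _ => ?_
        by_cases h21 : ∀ u ≤ s, c (j + u) ∉ F i
        · rw [if_pos h21, if_pos]
          rw [disjoint_left]
          intro y hy hyJ
          simp only [hJdef, mem_image, mem_range] at hyJ
          obtain ⟨u, hu, rfl⟩ := hyJ
          exact h21 u (by omega) (mem_insert_of_mem (mem_inter.2 ⟨hy, hmem _⟩))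
        · rw [if_neg h21]
          split_ifs
          · exact E_nn _ _ _
          · exact le_rfl
      calc _ ≤ K i := h20
        _ ≤ 28 * r' := hKi
        _ ≤ 100 * r := by linarith

end Pool.Agent.T9h22.DP
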