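import Pool.Agent.T9h21.DP.Spec

/-!
# McDiarmid's inequality for finite products
-/

set_option autoImplicit false
set_option linter.unusedSectionVars false

namespace Pool.Agent.T9h22.DP

open Finset Pool.Agent.T9h21.DP

/-- mean value -/
noncomputable def mean {α : Type} [Fintype α] (g : α → ℝ) : ℝ := (∑ a, g a) / Fintype.card α

section

variable {α : Type} [Fintype α] [Nonempty α]

theorem card_pos' : (0 : ℝ) < Fintype.card α := by exact_mod_cast Fintype.card_pos

theorem sub_mean_le (g : α → ℝ) (B : ℝ) (h : ∀ a a', |g a - g a'| ≤ B) (a : α) :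
    |g a - mean g| ≤ B := by
  have hc : (0 : ℝ) < Fintype.card α := card_pos'
  have h1 : g a - mean g = (∑ a', (g a - g a')) / Fintype.card α := by
    unfold mean
    rw [sum_sub_distrib, sum_const, card_univ, nsmul_eq_mul]
    field_simp
  rw [h1, abs_div, abs_of_pos hc, div_le_iff₀ hc]
  refine (abs_sum_le_sum_abs _ _).trans ((sum_le_sum fun a' _ => h a a').trans ?_)
  rw [sum_const, card_univ, nsmul_eq_mul, mul_comm]

theorem sum_sub_mean (g : α → ℝ) : ∑ a, (g a - mean g) = 0 := by
  have hc : (0 : ℝ) < Fintype.card α := card_pos'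
  unfold mean
  rw [sum_sub_distrib, sum_const, card_univ, nsmul_eq_mul]
  field_simp
  ring

theorem chord (B l y : ℝ) (hB : 0 < B) (hy : |y| ≤ B) :
    Real.exp (-(l * y)) ≤
      (B - y) / (2 * B) * Real.exp (l * B) + (B + y) / (2 * B) * Real.exp (-(l * B)) := by
  have ha : 0 ≤ (B - y) / (2 * B) :=
    div_nonneg (by linarith [(abs_le.1 hy).2]) (by linarith)
  have hb : 0 ≤ (B + y) / (2 * B) :=
    div_nonneg (by linarith [(abs_le.1 hy).1]) (by linarith)
  have hab : (B - y) / (2 * B) + (B + y) / (2 * B) = 1 := by field_simp; ring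
  have h1 := convexOn_exp.2 (Set.mem_univ (l * B)) (Set.mem_univ (-(l * B))) ha hb hab
  simp only [smul_eq_mul] at h1
  refine le_trans (le_of_eq ?_) h1
  congr 1
  field_simp
  ring

/-- Hoeffding's lemma -/
theorem hoeff (g : α → ℝ) (B l : ℝ) (hB : 0 < B) (h : ∀ a a', |g a - g a'| ≤ B) :
    ∑ a, Real.exp (-(l * g a)) ≤
      Fintype.card α * Real.exp (-(l * mean g) + l ^ 2 * B ^ 2 / 2) := by
  have h1 : ∑ a, Real.exp (-(l * (g a - mean g))) ≤
      Fintype.card α * Real.exp (l ^ 2 * B ^ 2 / 2) := by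
    have h2 : ∑ a, Real.exp (-(l * (g a - mean g))) ≤
        ∑ a, ((B - (g a - mean g)) / (2 * B) * Real.exp (l * B) +
          (B + (g a - mean g)) / (2 * B) * Real.exp (-(l * B))) :=
      sum_le_sum fun a _ => chord B l _ hB (sub_mean_le g B h a)
    have h3 : ∑ a, ((B - (g a - mean g)) / (2 * B) * Real.exp (l * B) +
          (B + (g a - mean g)) / (2 * B) * Real.exp (-(l * B))) =
        Fintype.card α * Real.cosh (l * B) := by
      have h4 : ∀ a, (B - (g a - mean g)) / (2 * B) * Real.exp (l * B) +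
          (B + (g a - mean g)) / (2 * B) * Real.exp (-(l * B)) =
          Real.cosh (l * B) +
            (g a - mean g) * ((Real.exp (-(l * B)) - Real.exp (l * B)) / (2 * B)) := by
        intro a
        rw [Real.cosh_eq]
        field_simp
        ring
      rw [sum_congr rfl fun a _ => h4 a, sum_add_distrib, ← sum_mul, sum_sub_mean, zero_mul,
        add_zero, sum_const, card_univ, nsmul_eq_mul]
    rw [h3] at h2
    refine h2.trans (mul_le_mul_of_nonneg_left ?_ card_pos'.le)
    have h5 := Real.cosh_le_exp_half_sq (l * B)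
    rwa [mul_pow] at h5
  have h6 : ∀ a, Real.exp (-(l * g a)) =
      Real.exp (-(l * mean g)) * Real.exp (-(l * (g a - mean g))) := by
    intro a
    rw [← Real.exp_add]
    congr 1
    ring
  rw [sum_congr rfl fun a _ => h6 a, ← mul_sum, Real.exp_add]
  calc Real.exp (-(l * mean g)) * ∑ a, Real.exp (-(l * (g a - mean g)))
      ≤ Real.exp (-(l * mean g)) * (Fintype.card α * Real.exp (l ^ 2 * B ^ 2 / 2)) :=
        mul_le_mul_of_nonneg_left h1 (Real.exp_pos _).le
    _ = _ := by ring

/-- sums over a product -/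
theorem sum_cons (n : ℕ) (f : (Fin (n + 1) → α) → ℝ) :
    ∑ X, f X = ∑ a, ∑ X' : Fin n → α, f (Fin.cons a X') := by
  rw [← (Fin.consEquiv (fun _ : Fin (n + 1) => α)).sum_comp, Fintype.sum_prod_type]
  rfl

theorem mgf (n : ℕ) (F : (Fin n → α) → ℝ) (B l : ℝ) (hB : 0 < B)
    (h : ∀ (X : Fin n → α) (v : Fin n) (a : α), |F (Function.update X v a) - F X| ≤ B) :
    ∑ X, Real.exp (-(l * F X)) ≤
      (Fintype.card α : ℝ) ^ n *
        Real.exp (-(l * ((∑ X, F X) / (Fintype.card α : ℝ) ^ n)) + n * (l ^ 2 * B ^ 2 / 2)) := by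
  induction n with
  | zero =>
    simp
  | succ n ih =>
    have hc : (0 : ℝ) < Fintype.card α := card_pos'
    set g : α → ℝ := fun a => (∑ X' : Fin n → α, F (Fin.cons a X')) / (Fintype.card α : ℝ) ^ n
      with hg
    have hup : ∀ (a a' : α) (X' : Fin n → α),
        Function.update (Fin.cons a' X' : Fin (n + 1) → α) 0 a = Fin.cons a X' := by
      intro a a' X'
      exact Fin.update_cons_zero _ _ _
    have hgd : ∀ a a', |g a - g a'| ≤ B := by
      intro a a'
      simp only [hg]
      rw [← sub_div, ← sum_sub_distrib, abs_div, abs_of_pos (pow_pos hc n),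
        div_le_iff₀ (pow_pos hc n)]
      refine (abs_sum_le_sum_abs _ _).trans
        ((sum_le_sum (g := fun _ => B) fun X' _ => ?_).trans ?_)
      · have := h (Fin.cons a' X') 0 a
        rwa [hup] at this
      · rw [sum_const, card_univ, nsmul_eq_mul, Fintype.card_fun, Fintype.card_fin, mul_comm]
        push_cast
        exact le_rfl
    have hin : ∀ a, ∑ X' : Fin n → α, Real.exp (-(l * F (Fin.cons a X'))) ≤
        (Fintype.card α : ℝ) ^ n *
          Real.exp (-(l * g a) + n * (l ^ 2 * B ^ 2 / 2)) := by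
      intro a
      refine ih (fun X' => F (Fin.cons a X')) fun X' v b => ?_
      have h1 := h (Fin.cons a X') v.succ b
      rwa [← Fin.cons_update] at h1
    rw [sum_cons, sum_cons]
    refine (sum_le_sum fun a _ => hin a).trans ?_
    have h2 : ∀ a, (Fintype.card α : ℝ) ^ n * Real.exp (-(l * g a) + n * (l ^ 2 * B ^ 2 / 2)) =
        ((Fintype.card α : ℝ) ^ n * Real.exp (n * (l ^ 2 * B ^ 2 / 2))) *
          Real.exp (-(l * g a)) := by
      intro a
      rw [Real.exp_add]
      ring
    rw [sum_congr rfl fun a _ => h2 a, ← mul_sum]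
    have h3 := hoeff g B l hB hgd
    have hmean : mean g = (∑ a, ∑ X' : Fin n → α, F (Fin.cons a X')) /
        (Fintype.card α : ℝ) ^ (n + 1) := by
      unfold mean
      simp only [hg]
      rw [← sum_div, div_div, pow_succ]
    rw [hmean] at h3
    calc (Fintype.card α : ℝ) ^ n * Real.exp (n * (l ^ 2 * B ^ 2 / 2)) *
          ∑ a, Real.exp (-(l * g a))
        ≤ (Fintype.card α : ℝ) ^ n * Real.exp (n * (l ^ 2 * B ^ 2 / 2)) *
          (Fintype.card α * Real.exp (-(l * ((∑ a, ∑ X' : Fin n → α, F (Fin.cons a X')) /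
            (Fintype.card α : ℝ) ^ (n + 1))) + l ^ 2 * B ^ 2 / 2)) :=
          mul_le_mul_of_nonneg_left h3 (by positivity)
      _ = (Fintype.card α : ℝ) ^ (n + 1) * (Real.exp (n * (l ^ 2 * B ^ 2 / 2)) *
          Real.exp (-(l * ((∑ a, ∑ X' : Fin n → α, F (Fin.cons a X')) /
            (Fintype.card α : ℝ) ^ (n + 1))) + l ^ 2 * B ^ 2 / 2)) := by
          rw [pow_succ]; ring
      _ = _ := by
          rw [← Real.exp_add]
          congr 2
          push_cast
          ring

end

theorem mcd (m : ℕ) : S_mcd m := by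
  intro F B t hB ht h
  set n : ℝ := (m : ℝ) + 1 with hn
  have hn0 : 0 < n := by positivity
  set l : ℝ := t / (n * B ^ 2) with hl
  have hl0 : 0 < l := by positivity
  have h1 := mgf (m + 1) F B l hB h
  rw [Fintype.card_fin] at h1
  push_cast at h1
  rw [← hn] at h1
  have hA : (∑ X, F X) / n ^ (m + 1) = avg F := rfl
  rw [hA] at h1
  have h2 : ((univ.filter fun X => F X ≤ avg F - t).card : ℝ) ≤
      ∑ X, Real.exp (-(l * (F X - (avg F - t)))) := by
    rw [card_eq_sum_ones, Nat.cast_sum, sum_filter]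
    refine sum_le_sum fun X _ => ?_
    split_ifs with hX
    · rw [Nat.cast_one, ← Real.exp_zero]
      refine Real.exp_le_exp.2 ?_
      have : l * (F X - (avg F - t)) ≤ 0 :=
        mul_nonpos_of_nonneg_of_nonpos hl0.le (by linarith)
      linarith
    · exact (Real.exp_pos _).le
  refine h2.trans ?_
  have h3 : ∀ X, Real.exp (-(l * (F X - (avg F - t)))) =
      Real.exp (l * (avg F - t)) * Real.exp (-(l * F X)) := by
    intro X
    rw [← Real.exp_add]
    congr 1
    ring
  rw [sum_congr rfl fun X _ => h3 X, ← mul_sum]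
  calc Real.exp (l * (avg F - t)) * ∑ X, Real.exp (-(l * F X))
      ≤ Real.exp (l * (avg F - t)) * (n ^ (m + 1) *
        Real.exp (-(l * avg F) + n * (l ^ 2 * B ^ 2 / 2))) :=
        mul_le_mul_of_nonneg_left h1 (Real.exp_pos _).le
    _ = n ^ (m + 1) * (Real.exp (l * (avg F - t)) *
        Real.exp (-(l * avg F) + n * (l ^ 2 * B ^ 2 / 2))) := by ring
    _ = _ := by
        rw [← Real.exp_add]
        congr 2
        rw [hl]
        field_simp
        ring

end Pool.Agent.T9h22.DP
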